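import Mathlib
import Pool.Agent.H922R2.OPC.Stubs

set_option autoImplicit false

open MvPolynomial Pool.Agent.H922R2.OPC

namespace Pool.Agent.Helper363.OPC_COP

variable {k : Type} [Field k]

lemma algL (c : k) : algebraMap k (L k) c = HahnSeries.C (Polynomial.C c) := by
  rw [HahnSeries.algebraMap_apply', PowerSeries.algebraMap_apply, HahnSeries.ofPowerSeries_C]
  rfl

lemma ev_C (n : ℕ) (φ : L k) (c : k) : ev n φ (C c) = HahnSeries.C (Polynomial.C c) := by
  rw [← algL]
  exact AlgHom.commutes _ c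

lemma sp_lam_sub (μ : k) (R : L k →+* LaurentSeries k) (hR : ∀ h, R h = sp μ h) :
    R (lam - HahnSeries.C (Polynomial.C μ)) = 0 := by
  rw [hR]
  ext i
  unfold sp lam
  rw [HahnSeries.map_coeff, HahnSeries.coeff_sub]
  simp only [HahnSeries.C_apply, HahnSeries.coeff_single, HahnSeries.coeff_zero]
  split_ifs with h <;> simp

lemma dvd_aeval (f g : B k) (μ : k) :
    f - C μ ∣ aeval ![X 0, f] g - aeval ![X 0, C μ] g := by
  induction g using MvPolynomial.induction_on with
  | C a => simp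
  | add p q hp hq =>
    rw [map_add, map_add]
    have h : aeval ![X 0, f] p + aeval ![X 0, f] q -
        (aeval ![X 0, C μ] p + aeval ![X 0, C μ] q) =
        (aeval ![X 0, f] p - aeval ![X 0, C μ] p) +
          (aeval ![X 0, f] q - aeval ![X 0, C μ] q) := by ring
    rw [h]
    exact dvd_add hp hq
  | mul_X p i hp =>
    rw [map_mul, map_mul, aeval_X, aeval_X]
    have h : aeval ![X 0, f] p * (![X 0, f] : Fin 2 → B k) i -
        aeval ![X 0, C μ] p * (![X 0, C μ] : Fin 2 → B k) i =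
        (aeval ![X 0, f] p - aeval ![X 0, C μ] p) * (![X 0, f] : Fin 2 → B k) i +
          aeval ![X 0, C μ] p * ((![X 0, f] : Fin 2 → B k) i -
            (![X 0, C μ] : Fin 2 → B k) i) := by ring
    rw [h]
    refine dvd_add (dvd_mul_of_dvd_left hp _) (dvd_mul_of_dvd_right ?_ _)
    fin_cases i <;> simp

lemma rot_one (x : L k) : rot 1 x = x := by
  ext i : 2
  show Polynomial.C ((1 : k) ^ i) * x.coeff i = x.coeff i
  rw [one_zpow, map_one, one_mul]

lemma sp_rot_ne (μ c : k) (hc : c ≠ 0) (x : L k) (hx : sp μ x ≠ 0) : sp μ (rot c x) ≠ 0 := by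
  intro h
  apply hx
  ext i
  have h1 := congrArg (fun y : LaurentSeries k => y.coeff i) h
  beta_reduce at h1
  unfold sp at h1 ⊢
  rw [HahnSeries.map_coeff] at h1 ⊢
  have h2 : (rot c x).coeff i = Polynomial.C (c ^ i) * x.coeff i := rfl
  rw [h2, map_mul] at h1
  rcases mul_eq_zero.mp h1 with h3 | h3
  · exfalso
    have h4 : Polynomial.evalRingHom μ (Polynomial.C (c ^ i)) = c ^ i := by simp
    rw [h4] at h3
    exact zpow_ne_zero i hc h3
  · rw [h3]
    rfl

/-- the main relation -/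
lemma rel (n : ℕ) (hn : 0 < n) (f : B k) (φ : L k) (ζ : k) (hINJ : Function.Injective (ev n φ))
    (h : B k)
    (hC : ∀ l, ∃ g : B k,
      (∏ i ∈ Finset.range n, (Polynomial.X - Polynomial.C (rot (ζ ^ i) (ev n φ h)))).coeff l =
        ev n φ (aeval ![X 0, f] g)) :
    ∃ g w : B k, aeval ![X 0, f] g = h * w ∧
      ev n φ (aeval ![X 0, f] g) =
        ∏ i ∈ Finset.range n, (- rot (ζ ^ i) (ev n φ h)) := by
  choose g hg using hC
  set P : Polynomial (L k) :=
    ∏ i ∈ Finset.range n, (Polynomial.X - Polynomial.C (rot (ζ ^ i) (ev n φ h))) with hP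
  have h1 : P.eval (ev n φ h) = 0 := by
    rw [hP, Polynomial.eval_prod]
    apply Finset.prod_eq_zero (Finset.mem_range.mpr hn)
    rw [pow_zero, rot_one]
    simp
  have h2 : P.coeff 0 = ∏ i ∈ Finset.range n, (- rot (ζ ^ i) (ev n φ h)) := by
    rw [Polynomial.coeff_zero_eq_eval_zero, hP, Polynomial.eval_prod]
    refine Finset.prod_congr rfl fun i _ => ?_
    simp
  rw [Polynomial.eval_eq_sum_range, Finset.sum_range_succ'] at h1
  have h3 : ev n φ (aeval ![X 0, f] (g 0) + h * ∑ l ∈ Finset.range P.natDegree,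
      aeval ![X 0, f] (g (l + 1)) * h ^ l) = 0 := by
    rw [map_add, map_mul, map_sum, ← h1, ← hg 0, pow_zero, mul_one, add_comm, Finset.mul_sum]
    congr 1
    refine Finset.sum_congr rfl fun l _ => ?_
    rw [map_mul, map_pow, hg (l + 1)]
    ring
  have h4 := hINJ (h3.trans (map_zero (ev n φ)).symm)
  refine ⟨g 0, - ∑ l ∈ Finset.range P.natDegree, aeval ![X 0, f] (g (l + 1)) * h ^ l, ?_, ?_⟩
  · rw [mul_neg]
    exact eq_neg_of_add_eq_zero_left h4
  · rw [← hg 0, h2]

theorem cop (k : Type) [Field k] [IsAlgClosed k] [CharZero k] : S_COP k := by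
  intro hSPR hROT hEVF hMON hINJ hCHR n f φ ζ hOP μ h hne
  obtain ⟨R, hR⟩ := hSPR μ
  have hn : 0 < n := hOP.1
  have hζ : ζ ≠ 0 := hOP.2.1.ne_zero (by omega)
  obtain ⟨g, w, hgw, hprod⟩ := rel n hn f φ ζ (hINJ hEVF hMON n f φ ζ hOP) h
    (hCHR hROT hEVF hMON n f φ ζ hOP h)
  obtain ⟨q, hq⟩ := dvd_aeval f g μ
  have hRne : R (ev n φ (aeval ![X 0, f] g)) ≠ 0 := by
    rw [hprod, map_prod]
    refine Finset.prod_ne_zero_iff.mpr fun i _ => ?_
    rw [map_neg, neg_ne_zero, hR]
    exact sp_rot_ne μ _ (pow_ne_zero i hζ) _ hne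
  have hRf : R (ev n φ (f - C μ)) = 0 := by
    rw [map_sub, hEVF n f φ ζ hOP, ev_C]
    exact sp_lam_sub μ R hR
  have ha : Polynomial.aeval (X 0 : B k) (aeval ![Polynomial.X, Polynomial.C μ] g) =
      aeval ![X 0, C μ] g := by
    have h1 : (Polynomial.aeval (X 0 : B k)).comp
        (aeval ![(Polynomial.X : Polynomial k), Polynomial.C μ]) =
        aeval (![X 0, C μ] : Fin 2 → B k) := by
      apply MvPolynomial.algHom_ext
      intro i
      fin_cases i
      · simp
      · simp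
    exact DFunLike.congr_fun h1 g
  refine ⟨aeval ![Polynomial.X, Polynomial.C μ] g, ?_, w, -q, ?_⟩
  · intro h0
    rw [h0, map_zero] at ha
    rw [← ha, sub_zero] at hq
    apply hRne
    rw [hq, map_mul, map_mul, hRf, zero_mul]
  · rw [ha]
    have h5 : aeval ![X 0, C μ] g = aeval ![X 0, f] g - (f - C μ) * q := by
      rw [← hq]
      ring
    rw [h5, hgw]
    ring

end Pool.Agent.Helper363.OPC_COP
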